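import Pool.Agent.H.MP_f2f7de_al.Span
import Pool.Agent.H.MP_f2f7de_al.Gen

namespace Pool.Agent.Results.MP_f2f7de_al.Yes

open MeasureTheory Filter Topology
open scoped CompactlySupported NNReal ENNReal

/-- A point of unprojectivized Outer space: a free cocompact action of the free group by
automorphisms on a simplicial tree with all degrees at least three, with invariant positive edge
lengths. -/
structure CV (N : ℕ) where
  V : Type
  Γ : SimpleGraph V
  tree : Γ.IsTree
  [act : MulAction (FreeGroup (Fin N)) V]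
  adj : ∀ (g : FreeGroup (Fin N)) u v, Γ.Adj u v → Γ.Adj (g • u) (g • v)
  free : ∀ (g : FreeGroup (Fin N)) (v : V), g • v = v → g = 1
  deg : ∀ v, 3 ≤ (Γ.neighborSet v).encard
  cocompact : ∃ s : Set (V × V), s.Finite ∧
    ∀ u v, Γ.Adj u v → ∃ g : FreeGroup (Fin N), (g • u, g • v) ∈ s
  len : Sym2 V → ℝ
  pos : ∀ e ∈ Γ.edgeSet, 0 < len e
  inv : ∀ (g : FreeGroup (Fin N)) u v, Γ.Adj u v → len s(g • u, g • v) = len s(u, v)

variable {N : ℕ}

/-- length of the geodesic between two vertices -/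
noncomputable def CV.d (T : CV N) (u v : T.V) : ℝ :=
  ⨅ p : T.Γ.Path u v, (p.1.edges.map T.len).sum

/-- translation length -/
noncomputable def CV.tl (T : CV N) (g : FreeGroup (Fin N)) : ℝ :=
  letI := T.act
  ⨅ v : T.V, T.d v (g • v)

/-- inverse letter -/
def bar (x : Fin N × Bool) : Fin N × Bool := (x.1, !x.2)

/-- the boundary: infinite reduced words -/
abbrev Bd (N : ℕ) : Type := {ξ : ℕ → Fin N × Bool // ∀ n, ξ (n + 1) ≠ bar (ξ n)}

/-- left multiplication of an infinite reduced word by a letter -/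
def mulL (x : Fin N × Bool) (ξ : Bd N) : Bd N :=
  if h : ξ.1 0 = bar x then ⟨fun n => ξ.1 (n + 1), fun n => ξ.2 (n + 1)⟩
  else ⟨fun n => Nat.casesOn n x ξ.1, fun n => Nat.casesOn n h ξ.2⟩

theorem bar_bar (x : Fin N × Bool) : bar (bar x) = x := by simp [bar]

theorem mulL_bar (x : Fin N × Bool) (ξ : Bd N) : mulL (bar x) (mulL x ξ) = ξ := by
  by_cases h : ξ.1 0 = bar x
  · have e : mulL x ξ = ⟨fun n => ξ.1 (n + 1), fun n => ξ.2 (n + 1)⟩ := dif_pos h
    have h2 : ¬ (mulL x ξ).1 0 = bar (bar x) := by rw [e, ← h]; exact ξ.2 0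
    rw [mulL, dif_neg h2]
    apply Subtype.ext
    funext n
    cases n with
    | zero => exact h.symm
    | succ n => simp only [e]
  · have e : mulL x ξ = ⟨fun n => Nat.casesOn n x ξ.1, fun n => Nat.casesOn n h ξ.2⟩ := dif_neg h
    have h2 : (mulL x ξ).1 0 = bar (bar x) := by rw [e, bar_bar]; rfl
    rw [mulL, dif_pos h2]
    apply Subtype.ext
    funext n
    simp only [e]

/-- the action of the free group on its boundary -/
def act : FreeGroup (Fin N) →* Equiv.Perm (Bd N) :=
  FreeGroup.lift fun i =>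
    ⟨mulL (i, true), mulL (i, false), mulL_bar (i, true), mulL_bar (i, false)⟩

/-- pairs of distinct boundary points -/
def Bd2 (N : ℕ) : Type := {p : Bd N × Bd N // p.1 ≠ p.2}

instance : TopologicalSpace (Bd2 N) :=
  inferInstanceAs (TopologicalSpace {p : Bd N × Bd N // p.1 ≠ p.2})
instance : MeasurableSpace (Bd2 N) := borel _
instance : BorelSpace (Bd2 N) := ⟨rfl⟩

def act2 (g : FreeGroup (Fin N)) (p : Bd2 N) : Bd2 N :=
  ⟨(act g p.1.1, act g p.1.2), fun h => p.2 ((act g).injective h)⟩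

def flip2 (p : Bd2 N) : Bd2 N := ⟨(p.1.2, p.1.1), fun h => p.2 h.symm⟩

/-- geodesic currents -/
structure Curr (N : ℕ) where
  μ : Measure (Bd2 N)
  radon : IsLocallyFiniteMeasure μ
  ne : μ ≠ 0
  inv : ∀ g, μ.map (act2 g) = μ
  flip : μ.map flip2 = μ

/-- the weak-* topology -/
noncomputable instance : TopologicalSpace (Curr N) :=
  TopologicalSpace.induced (fun (m : Curr N) (f : C_c(Bd2 N, ℝ)) => ∫ p, f p ∂m.μ) inferInstance

/-- the counting current of `g`: unit masses at the ordered pairs of fixed points of the conjugates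
of `g`, times the largest `m` such that `g` is an `m`-th power -/
noncomputable def eta (g : FreeGroup (Fin N)) : Measure (Bd2 N) :=
  ((sSup {m : ℕ | ∃ f, f ^ m = g} : ℕ) : ℝ≥0∞) •
    Measure.sum fun p : {p : Bd2 N // ∃ u, IsConj g u ∧ act2 u p = p} => Measure.dirac p.1

/-- the properties characterising the intersection form -/
structure IsInter (I : CV N → Curr N → ℝ) : Prop where
  cont : ∀ T, Continuous (I T)
  add : ∀ T (a b c : Curr N), c.μ = a.μ + b.μ → I T c = I T a + I T b
  smul : ∀ T (r : ℝ≥0) (a c : Curr N), c.μ = r • a.μ → I T c = r * I T a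
  count : ∀ T g (a : Curr N), g ≠ 1 → a.μ = eta g → I T a = T.tl g

open FreeGroup

theorem act_one (x : Fin N × Bool) (ξ : Bd N) : act (mk [x]) ξ = mulL x ξ := by
  obtain ⟨i, b⟩ := x
  cases b
  · have : (mk [(i, false)] : FreeGroup (Fin N)) = (of i)⁻¹ := rfl
    rw [this, MonoidHom.map_inv, act, lift_apply_of]; rfl
  · have : (mk [(i, true)] : FreeGroup (Fin N)) = of i := rfl
    rw [this, act, lift_apply_of]; rfl

theorem act_cons (x : Fin N × Bool) (L : List (Fin N × Bool)) (ξ : Bd N) :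
    act (mk (x :: L)) ξ = mulL x (act (mk L) ξ) := by
  have : (mk (x :: L) : FreeGroup (Fin N)) = mk [x] * mk L := by rw [mul_mk]; rfl
  rw [this, MonoidHom.map_mul, Equiv.Perm.mul_apply, act_one]

/-- concatenation -/
def cat (L : List (Fin N × Bool)) (ξ : ℕ → Fin N × Bool) (n : ℕ) : Fin N × Bool :=
  if h : n < L.length then L[n] else ξ (n - L.length)

theorem rel_iff {a b : Fin N × Bool} : (a.1 = b.1 → a.2 = b.2) ↔ b ≠ bar a := by
  obtain ⟨i, x⟩ := a
  obtain ⟨j, y⟩ := b
  cases x <;> cases y <;> simp [bar, eq_comm]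

theorem nocancel (L : List (Fin N × Bool)) (hL : IsReduced L) (ξ : Bd N)
    (h : ∀ b ∈ L.getLast?, ξ.1 0 ≠ bar b) : (act (mk L) ξ).1 = cat L ξ.1 := by
  induction L with
  | nil =>
    funext n
    have : (mk [] : FreeGroup (Fin N)) = 1 := rfl
    simp [this, cat]
  | cons x L ih =>
    have hr : IsReduced L := hL.tail
    have e := ih hr (fun b hb => h b (by
      cases L with
      | nil => simp at hb
      | cons y L => rwa [List.getLast?_cons_cons]))
    have h0 : ¬ (act (mk L) ξ).1 0 = bar x := by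
      rw [e]
      cases L with
      | nil => simpa [cat] using h
      | cons y L => simpa [cat] using rel_iff.1 (List.isChain_cons_cons.1 hL).1
    rw [act_cons, mulL, dif_neg h0]
    funext n
    cases n with
    | zero => simp [cat]
    | succ n => simp [e, cat]

theorem per_unique {L : List (Fin N × Bool)} (hL : L ≠ []) {ξ ζ : ℕ → Fin N × Bool}
    (h1 : ξ = cat L ξ) (h2 : ζ = cat L ζ) : ξ = ζ := by
  funext n
  induction n using Nat.strong_induction_on with | _ n ih => ?_
  rw [h1, h2]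
  unfold cat
  split_ifs with h
  · rfl
  · have := List.length_pos_iff.2 hL
    exact ih _ (by omega)

theorem per_exists {L : List (Fin N × Bool)} (hL : L ≠ []) (hr : IsReduced L)
    (hc : L.head hL ≠ bar (L.getLast hL)) :
    ∃ ξ : Bd N, act (mk L) ξ = ξ ∧ ξ.1 0 = L.head hL := by
  have hp := List.length_pos_iff.2 hL
  let ξ : Bd N := ⟨fun n => L[n % L.length]'(Nat.mod_lt _ hp), fun n => by
    have h1 := Nat.mod_lt n hp
    by_cases h : n % L.length + 1 < L.length
    · have e : (n + 1) % L.length = n % L.length + 1 := by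
        rw [← Nat.mod_add_mod, Nat.mod_eq_of_lt h]
      simp only [e]
      exact rel_iff.1 (List.isChain_iff_getElem.1 hr _ h)
    · have e0 : n % L.length = L.length - 1 := by omega
      have e : (n + 1) % L.length = 0 := by
        rw [← Nat.mod_add_mod, e0, Nat.sub_add_cancel hp, Nat.mod_self]
      simp only [e, e0]
      rwa [List.head_eq_getElem, List.getLast_eq_getElem] at hc⟩
  have h0 : ξ.1 0 = L.head hL := by simp [ξ, List.head_eq_getElem]
  refine ⟨ξ, Subtype.ext ?_, h0⟩
  rw [nocancel L hr ξ (by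
    intro b hb
    rw [List.getLast?_eq_some_getLast hL, Option.mem_def, Option.some.injEq] at hb
    rw [h0, ← hb]; exact hc)]
  funext n
  unfold cat
  split_ifs with h
  · simp [ξ, Nat.mod_eq_of_lt h]
  · simp only [ξ]
    congr 1
    exact (Nat.mod_eq_sub_mod (by omega)).symm

theorem invRev_ne {L : List (Fin N × Bool)} (hL : L ≠ []) : invRev L ≠ [] := by
  simpa [invRev] using hL

theorem invRev_head {L : List (Fin N × Bool)} (hL : L ≠ []) :
    (invRev L).head (invRev_ne hL) = bar (L.getLast hL) := by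
  simp [invRev, bar, List.head_reverse, List.getLast_map]

theorem invRev_last {L : List (Fin N × Bool)} (hL : L ≠ []) :
    (invRev L).getLast (invRev_ne hL) = bar (L.head hL) := by
  simp [invRev, bar, List.getLast_reverse, List.head_map]

theorem norm_bound {g u : FreeGroup (Fin N)} (hu : IsCyclicallyReduced u.toWord) {m : ℕ}
    (h : IsConj g (u ^ m)) : m * u.norm ≤ g.norm := by
  obtain ⟨c, hc⟩ := isConj_iff.1 h
  have a1 : ∀ n : ℕ, (u ^ n).norm = n * u.norm := by
    intro n
    unfold FreeGroup.norm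
    rw [toWord_pow, (hu.flatten_replicate n).isReduced.reduce_eq]
    simp
  have a2 : ∀ n : ℕ, (g ^ n).norm ≤ n * g.norm := by
    intro n
    induction n with
    | zero => simp
    | succ n ih =>
      have := norm_mul_le (g ^ n) g
      rw [pow_succ]; nlinarith
  have a3 : ∀ n : ℕ, m * n * u.norm ≤ c.norm + n * g.norm + c.norm := by
    intro n
    rw [← a1, pow_mul, ← hc, conj_pow]
    have b1 := norm_mul_le (c * g ^ n) c⁻¹
    have b2 := norm_mul_le c (g ^ n)
    have b3 := a2 n
    rw [norm_inv_eq] at b1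
    omega
  by_contra hh
  have := a3 (2 * c.norm + 1)
  nlinarith

theorem cyc_conj {g : FreeGroup (Fin N)} (hg : g ≠ 1) :
    ∃ u, IsConj g u ∧ u ≠ 1 ∧ IsCyclicallyReduced u.toWord := by
  have h1 := reduceCyclically.isCyclicallyReduced (isReduced_toWord (x := g))
  have h2 : IsConj g (mk (reduceCyclically g.toWord)) := by
    refine (isConj_iff.2 ⟨mk (reduceCyclically.conjugator g.toWord), ?_⟩).symm
    rw [inv_mk, mul_mk, mul_mk, reduceCyclically.conj_conjugator_reduceCyclically, mk_toWord]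
  refine ⟨_, h2, fun h => hg (isConj_one_left.1 (h ▸ h2)), ?_⟩
  rwa [toWord_mk, h1.isReduced.reduce_eq]

theorem mult_pos {g : FreeGroup (Fin N)} (hg : g ≠ 1) :
    1 ≤ sSup {m : ℕ | ∃ f : FreeGroup (Fin N), f ^ m = g} := by
  refine le_csSup ⟨g.norm, ?_⟩ ⟨g, pow_one g⟩
  rintro m ⟨f, rfl⟩
  obtain ⟨u, h1, h2, h3⟩ := cyc_conj (g := f) (fun h => hg (by simp [h]))
  have a1 := norm_bound h3 (h1.pow m)
  have a2 : u.norm ≠ 0 := fun h => h2 (norm_eq_zero.1 h)
  have : 1 ≤ u.norm := Nat.pos_of_ne_zero a2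
  nlinarith

theorem P_nonempty {g : FreeGroup (Fin N)} (hg : g ≠ 1) :
    ∃ p : Bd2 N, ∃ u, IsConj g u ∧ act2 u p = p := by
  obtain ⟨u, h1, h2, h3⟩ := cyc_conj hg
  have hL : u.toWord ≠ [] := fun h => h2 (toWord_eq_nil_iff.1 h)
  have hc : u.toWord.head hL ≠ bar (u.toWord.getLast hL) :=
    rel_iff.1 (h3.2 _ (List.getLast?_eq_some_getLast hL) _ (List.head?_eq_some_head hL))
  obtain ⟨ξ, a1, a2⟩ := per_exists hL h3.1 hc
  obtain ⟨ζ, b1, b2⟩ := per_exists (invRev_ne hL) (toWord_inv u ▸ isReduced_toWord)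
    (by rw [invRev_head hL, invRev_last hL, bar_bar]; exact hc.symm)
  rw [invRev_head hL] at b2
  rw [mk_toWord] at a1
  rw [← inv_mk, mk_toWord, MonoidHom.map_inv, Equiv.Perm.inv_eq_iff_eq] at b1
  refine ⟨⟨(ξ, ζ), fun h => hc ?_⟩, u, h1, Subtype.ext (Prod.ext a1 b1.symm)⟩
  rw [← a2, ← b2]
  exact congrArg (fun x : Bd N => x.1 0) h

/-- pairs with different first letters -/
def U (N : ℕ) : Set (Bd2 N) := {p | p.1.1.1 0 ≠ p.1.2.1 0}

theorem fix_cases {u : FreeGroup (Fin N)} (hL : u.toWord ≠ []) {ξ : Bd N} (h : act u ξ = ξ) :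
    (ξ.1 0 ≠ bar (u.toWord.getLast hL) → ξ.1 = cat u.toWord ξ.1 ∧ ξ.1 0 = u.toWord.head hL) := by
  intro h0
  have := nocancel u.toWord isReduced_toWord ξ (by
    intro b hb
    rw [List.getLast?_eq_some_getLast hL, Option.mem_def, Option.some.injEq] at hb
    rw [← hb]; exact h0)
  rw [mk_toWord, h] at this
  refine ⟨this, ?_⟩
  rw [this]
  simp [cat, List.length_pos_iff.2 hL, List.head_eq_getElem]

theorem PU_finite {g : FreeGroup (Fin N)} (hg : g ≠ 1) :
    ({p : Bd2 N | ∃ u, IsConj g u ∧ act2 u p = p} ∩ U N).Finite := by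
  have hB : {u : FreeGroup (Fin N) | u ≠ 1 ∧ u.norm ≤ g.norm}.Finite :=
    Set.Finite.subset ((List.finite_length_le (Fin N × Bool) g.norm).preimage
      toWord_injective.injOn) (fun u hu => hu.2)
  refine (hB.biUnion (t := fun u => {p : Bd2 N | p.1.1.1 = cat u.toWord p.1.1.1 ∧
    p.1.2.1 = cat u⁻¹.toWord p.1.2.1}) (fun u hu => Set.Subsingleton.finite ?_)).subset ?_
  · intro p hp q hq
    have hL : u.toWord ≠ [] := fun h => hu.1 (toWord_eq_nil_iff.1 h)
    have hL' : u⁻¹.toWord ≠ [] := fun h => hu.1 (inv_eq_one.1 (toWord_eq_nil_iff.1 h))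
    exact Subtype.ext (Prod.ext (Subtype.ext (per_unique hL hp.1 hq.1))
      (Subtype.ext (per_unique hL' hp.2 hq.2)))
  · rintro ⟨⟨ξ, ζ⟩, hne⟩ ⟨⟨u, h1, h2⟩, hU⟩
    have hu : u ≠ 1 := fun h => hg (isConj_one_left.1 (h ▸ h1))
    have hL : u.toWord ≠ [] := fun h => hu (toWord_eq_nil_iff.1 h)
    have hL' : u⁻¹.toWord ≠ [] := fun h => hu (inv_eq_one.1 (toWord_eq_nil_iff.1 h))
    have f1 : act u ξ = ξ := congrArg (fun q : Bd2 N => q.1.1) h2
    have f2 : act u ζ = ζ := congrArg (fun q : Bd2 N => q.1.2) h2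
    have f3 : act u⁻¹ ξ = ξ := by rw [MonoidHom.map_inv, Equiv.Perm.inv_eq_iff_eq, f1]
    have f4 : act u⁻¹ ζ = ζ := by rw [MonoidHom.map_inv, Equiv.Perm.inv_eq_iff_eq, f2]
    have a1 := fix_cases hL f1
    have a2 := fix_cases hL f2
    have a3 := fix_cases hL' f3
    have a4 := fix_cases hL' f4
    have e1 : u⁻¹.toWord.getLast hL' = bar (u.toWord.head hL) := by
      simp only [toWord_inv]; exact invRev_last hL
    have e2 : u⁻¹.toWord.head hL' = bar (u.toWord.getLast hL) := by
      simp only [toWord_inv]; exact invRev_head hL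
    rw [e1, e2, bar_bar] at a3 a4
    have hU' : ξ.1 0 ≠ ζ.1 0 := hU
    have hc : u.toWord.head hL ≠ bar (u.toWord.getLast hL) := by
      intro h
      have b1 : ξ.1 0 = u.toWord.head hL := by
        by_contra hh
        exact hh ((a3 hh).2.trans h.symm)
      have b2 : ζ.1 0 = u.toWord.head hL := by
        by_contra hh
        exact hh ((a4 hh).2.trans h.symm)
      exact hU' (b1.trans b2.symm)
    have hn : u.norm ≤ g.norm := by
      have := norm_bound (g := g) (u := u) (m := 1) ⟨isReduced_toWord, by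
        intro a ha b hb
        rw [List.getLast?_eq_some_getLast hL, Option.mem_def, Option.some.injEq] at ha
        rw [List.head?_eq_some_head hL, Option.mem_def, Option.some.injEq] at hb
        rw [← ha, ← hb]
        exact rel_iff.2 hc⟩ (by rwa [pow_one])
      omega
    simp only [Set.mem_iUnion, Set.mem_ofPred_eq, exists_prop]
    by_cases h : ξ.1 0 = u.toWord.head hL
    · exact ⟨u, ⟨hu, hn⟩, (a1 (fun e => hc (h.symm.trans e))).1,
        (a4 (fun e => hU' (h.trans e.symm))).1⟩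
    · refine ⟨u⁻¹, ⟨inv_ne_one.2 hu, by rwa [norm_inv_eq]⟩, (a3 h).1, ?_⟩
      rw [inv_inv]
      exact (a2 (fun e => hU' ((a3 h).2.trans e.symm))).1

theorem mulL_cont (x : Fin N × Bool) : Continuous (mulL x) := by
  refine Continuous.subtype_mk (f := fun ξ => (mulL x ξ).1) (continuous_pi fun n => ?_) _
  have e : (fun ξ : Bd N => (mulL x ξ).1 n) =
      (fun t : (Fin N × Bool) × (Fin N × Bool) × (Fin N × Bool) =>
        if t.1 = bar x then t.2.1 else if n = 0 then x else t.2.2) ∘
      (fun ξ : Bd N => (ξ.1 0, ξ.1 (n + 1), ξ.1 (n - 1))) := by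
    funext ξ
    simp only [mulL, Function.comp]
    split_ifs with h1 h2
    · rfl
    · subst h2; rfl
    · obtain ⟨k, rfl⟩ := Nat.exists_eq_succ_of_ne_zero h2
      rfl
  rw [e]
  have c : ∀ k, Continuous (fun ξ : Bd N => ξ.1 k) :=
    fun k => (continuous_apply k).comp continuous_subtype_val
  exact continuous_of_discreteTopology.comp ((c _).prodMk ((c _).prodMk (c _)))

theorem act_cont (g : FreeGroup (Fin N)) : Continuous (act g) := by
  rw [← mk_toWord (x := g)]
  induction g.toWord with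
  | nil => exact continuous_id
  | cons x L ih =>
    have : (act (mk (x :: L)) : Bd N → Bd N) = mulL x ∘ act (mk L) := funext (act_cons x L)
    rw [this]
    exact (mulL_cont x).comp ih

theorem c1 : Continuous (fun p : Bd2 N => p.1.1) :=
  continuous_fst.comp (continuous_subtype_val (p := fun p : Bd N × Bd N => p.1 ≠ p.2))

theorem c2 : Continuous (fun p : Bd2 N => p.1.2) :=
  continuous_snd.comp (continuous_subtype_val (p := fun p : Bd N × Bd N => p.1 ≠ p.2))

theorem act2_meas (g : FreeGroup (Fin N)) : Measurable (act2 g) := by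
  have : Continuous (act2 g) :=
    Continuous.subtype_mk (((act_cont g).comp c1).prodMk ((act_cont g).comp c2)) _
  exact this.measurable

theorem flip2_meas : Measurable (flip2 (N := N)) := by
  have : Continuous (flip2 (N := N)) := Continuous.subtype_mk (c2.prodMk c1) _
  exact this.measurable

theorem act2_mul (g h : FreeGroup (Fin N)) (p : Bd2 N) : act2 (g * h) p = act2 g (act2 h p) := by
  apply Subtype.ext
  simp [act2]

theorem act2_one (p : Bd2 N) : act2 1 p = p := by
  apply Subtype.ext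
  simp [act2]

def W (n : ℕ) : Set (Bd2 N) := {p | ∃ i ≤ n, p.1.1.1 i ≠ p.1.2.1 i}

theorem ne_open (i : ℕ) : IsOpen {p : Bd2 N | p.1.1.1 i ≠ p.1.2.1 i} :=
  isOpen_ne_fun ((continuous_apply i).comp (continuous_subtype_val.comp c1))
    ((continuous_apply i).comp (continuous_subtype_val.comp c2))

theorem W_open (n : ℕ) : IsOpen (W (N := N) n) := by
  have : W (N := N) n = ⋃ i ≤ n, {p : Bd2 N | p.1.1.1 i ≠ p.1.2.1 i} := by
    ext p; simp [W]
  rw [this]
  exact isOpen_biUnion (fun i _ => ne_open i)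

theorem U_meas : MeasurableSet (U N) := (ne_open 0).measurableSet

/-- invariant measures with finite weight -/
structure Good (μ : Measure (Bd2 N)) : Prop where
  inv : ∀ g, μ.map (act2 g) = μ
  flip : μ.map flip2 = μ
  fin : μ (U N) < ∞

theorem Good.radon {μ : Measure (Bd2 N)} (h : Good μ) : IsLocallyFiniteMeasure μ := by
  have hW : ∀ n, μ (W n) < ∞ := by
    intro n
    induction n with
    | zero =>
      have : W (N := N) 0 = U N := by ext p; simp [W, U]
      rw [this]; exact h.fin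
    | succ n ih =>
      have hs : W (N := N) (n + 1) ⊆ U N ∪ ⋃ x : Fin N × Bool, act2 (FreeGroup.mk [x]) ⁻¹' W n := by
        rintro ⟨⟨ξ, ζ⟩, hne⟩ ⟨i, hi, hp⟩
        by_cases h0 : ξ.1 0 = ζ.1 0
        · refine Or.inr (Set.mem_iUnion.2 ⟨bar (ξ.1 0), ?_⟩)
          obtain ⟨k, rfl⟩ := Nat.exists_eq_succ_of_ne_zero (n := i) (by rintro rfl; exact hp h0)
          refine ⟨k, by omega, ?_⟩
          show (act (FreeGroup.mk [bar (ξ.1 0)]) ξ).1 k ≠
            (act (FreeGroup.mk [bar (ξ.1 0)]) ζ).1 k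
          rw [act_one, act_one, mulL, mulL, dif_pos (bar_bar _).symm,
            dif_pos (by rw [bar_bar, h0])]
          exact hp
        · exact Or.inl h0
      refine (measure_mono hs).trans_lt ((measure_union_le _ _).trans_lt
        (ENNReal.add_lt_top.2 ⟨h.fin, ?_⟩))
      refine (measure_iUnion_fintype_le _ _).trans_lt (ENNReal.sum_lt_top.2 fun x _ => ?_)
      rwa [← Measure.map_apply (act2_meas _) (W_open n).measurableSet, h.inv]
  refine ⟨fun p => ?_⟩
  obtain ⟨i, hi⟩ := Function.ne_iff.1 (fun e => p.2 (Subtype.ext e))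
  exact ⟨W i, (W_open i).mem_nhds ⟨i, le_rfl, hi⟩, hW i⟩

theorem Good.add {μ ν : Measure (Bd2 N)} (h : Good μ) (h' : Good ν) : Good (μ + ν) :=
  ⟨fun g => by rw [Measure.map_add _ _ (act2_meas g), h.inv, h'.inv],
   by rw [Measure.map_add _ _ flip2_meas, h.flip, h'.flip],
   by rw [Measure.add_apply]; exact ENNReal.add_lt_top.2 ⟨h.fin, h'.fin⟩⟩

theorem Good.smul {μ : Measure (Bd2 N)} (h : Good μ) (r : ℝ≥0) : Good (r • μ) :=
  ⟨fun g => by rw [Measure.map_smul, h.inv], by rw [Measure.map_smul, h.flip],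
   by
    rw [Measure.smul_apply]
    exact ENNReal.mul_lt_top ENNReal.coe_lt_top h.fin⟩

theorem eta_good {g : FreeGroup (Fin N)} (hg : g ≠ 1) : Good (eta g) := by
  refine ⟨fun k => ?_, ?_, ?_⟩
  · have mv : ∀ (k : FreeGroup (Fin N)) (p : Bd2 N), (∃ u, IsConj g u ∧ act2 u p = p) →
        ∃ u, IsConj g u ∧ act2 u (act2 k p) = act2 k p := by
      rintro k p ⟨u, h1, h2⟩
      refine ⟨k * u * k⁻¹, h1.trans (isConj_iff.2 ⟨k, rfl⟩), ?_⟩
      rw [← act2_mul, inv_mul_cancel_right, act2_mul, h2]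
    let e : {p : Bd2 N // ∃ u, IsConj g u ∧ act2 u p = p} ≃
        {p : Bd2 N // ∃ u, IsConj g u ∧ act2 u p = p} :=
      { toFun := fun p => ⟨act2 k p.1, mv k p.1 p.2⟩
        invFun := fun p => ⟨act2 k⁻¹ p.1, mv k⁻¹ p.1 p.2⟩
        left_inv := fun p => Subtype.ext (by simp only [← act2_mul, inv_mul_cancel, act2_one])
        right_inv := fun p => Subtype.ext (by simp only [← act2_mul, mul_inv_cancel, act2_one]) }
    rw [eta, Measure.map_smul, Measure.map_sum (act2_meas k).aemeasurable]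
    simp only [Measure.map_dirac' (act2_meas k)]
    congr 1
    exact Measure.sum_comp_equiv e (fun p => Measure.dirac p.1)
  · have mv : ∀ (p : Bd2 N), (∃ u, IsConj g u ∧ act2 u p = p) →
        ∃ u, IsConj g u ∧ act2 u (flip2 p) = flip2 p := by
      rintro p ⟨u, h1, h2⟩
      exact ⟨u, h1, congrArg flip2 h2⟩
    let e : {p : Bd2 N // ∃ u, IsConj g u ∧ act2 u p = p} ≃
        {p : Bd2 N // ∃ u, IsConj g u ∧ act2 u p = p} :=
      { toFun := fun p => ⟨flip2 p.1, mv p.1 p.2⟩
        invFun := fun p => ⟨flip2 p.1, mv p.1 p.2⟩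
        left_inv := fun p => rfl
        right_inv := fun p => rfl }
    rw [eta, Measure.map_smul, Measure.map_sum flip2_meas.aemeasurable]
    simp only [Measure.map_dirac' flip2_meas]
    congr 1
    exact Measure.sum_comp_equiv e (fun p => Measure.dirac p.1)
  · rw [eta, Measure.smul_apply, Measure.sum_apply _ U_meas]
    refine ENNReal.mul_lt_top (ENNReal.natCast_lt_top _) ?_
    have hf := (PU_finite hg).preimage
      (f := fun p : {p : Bd2 N // ∃ u, IsConj g u ∧ act2 u p = p} => p.1)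
      Subtype.val_injective.injOn
    rw [tsum_eq_sum (s := hf.toFinset)]
    · exact ENNReal.sum_lt_top.2 fun p _ => measure_lt_top _ _
    · intro p hp
      rw [Measure.dirac_apply' _ U_meas, Set.indicator_of_notMem]
      intro h
      exact hp (hf.mem_toFinset.2 ⟨p.2, h⟩)

theorem smul_zero_cases {r : ℝ≥0∞} {μ : Measure (Bd2 N)} (h : r • μ = 0) : r = 0 ∨ μ = 0 := by
  have := congrArg (fun m : Measure (Bd2 N) => m Set.univ) h
  simpa using this

theorem eta_ne {g : FreeGroup (Fin N)} (hg : g ≠ 1) : eta g ≠ 0 := by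
  obtain ⟨p, hp⟩ := P_nonempty hg
  intro h
  rcases smul_zero_cases h with h | h
  · have := mult_pos hg
    rw [Nat.cast_eq_zero] at h
    omega
  · have := Measure.le_sum (fun p : {p : Bd2 N // ∃ u, IsConj g u ∧ act2 u p = p} =>
      Measure.dirac p.1) ⟨p, hp⟩ Set.univ
    rw [h] at this
    simp at this

def mkC (μ : Measure (Bd2 N)) (h : Good μ) (h0 : μ ≠ 0) : Curr N := ⟨μ, h.radon, h0, h.inv, h.flip⟩

theorem series (e : ℕ → FreeGroup (Fin N)) (he : ∀ n, e n ≠ 1) (c : ℕ → ℝ) (hc : ∀ n, 0 < c n)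
    (hs : Summable (fun n => c n * (eta (e n) (U N)).toReal)) :
    ∃ a : Curr N, ∀ I, IsInter I → ∀ T : CV N, Summable (fun n => c n * T.tl (e n)) →
      I T a = ∑' n, c n * T.tl (e n) := by
  let ν : ℕ → Measure (Bd2 N) := fun n => (c n).toNNReal • eta (e n)
  have hν : ∀ n, Good (ν n) := fun n => (eta_good (he n)).smul _
  have hν0 : ∀ n, ν n ≠ 0 := by
    intro n h
    have : ((c n).toNNReal : ℝ≥0∞) • eta (e n) = 0 := h
    rcases smul_zero_cases this with h | h
    · have := hc n
      simp at h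
      linarith
    · exact eta_ne (he n) h
  have hG : Good (Measure.sum ν) := by
    refine ⟨fun g => ?_, ?_, ?_⟩
    · rw [Measure.map_sum (act2_meas g).aemeasurable]
      simp only [(hν _).inv]
    · rw [Measure.map_sum flip2_meas.aemeasurable]
      simp only [(hν _).flip]
    · rw [Measure.sum_apply _ U_meas]
      convert hs.tsum_ofReal_lt_top with n
      rw [ENNReal.ofReal_mul (hc n).le, ENNReal.ofReal_toReal (eta_good (he n)).fin.ne]
      rfl
  have hG0 : Measure.sum ν ≠ 0 := fun h => hν0 0 (le_antisymm (h ▸ Measure.le_sum ν 0) bot_le)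
  have hP : ∀ k, Good (∑ n ∈ Finset.range (k + 1), ν n) := by
    intro k
    induction k with
    | zero => simpa using hν 0
    | succ k ih => rw [Finset.sum_range_succ]; exact ih.add (hν _)
  have hP0 : ∀ k, ∑ n ∈ Finset.range (k + 1), ν n ≠ 0 := by
    intro k h
    rw [Finset.sum_range_succ] at h
    exact hν0 k (le_antisymm (h ▸ Measure.le_add_left le_rfl) bot_le)
  refine ⟨mkC _ hG hG0, fun I hI T hT => ?_⟩
  have a1 : ∀ n, I T (mkC _ (hν n) (hν0 n)) = c n * T.tl (e n) := by
    intro n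
    rw [hI.smul T (c n).toNNReal (mkC _ (eta_good (he n)) (eta_ne (he n))) _ rfl,
      hI.count T (e n) _ (he n) rfl, Real.coe_toNNReal _ (hc n).le]
  have a2 : ∀ k, I T (mkC _ (hP k) (hP0 k)) = ∑ n ∈ Finset.range (k + 1), c n * T.tl (e n) := by
    intro k
    induction k with
    | zero =>
      rw [Finset.sum_range_one (fun n => c n * T.tl (e n)), ← a1]
      congr 2
      simp
    | succ k ih =>
      rw [Finset.sum_range_succ (fun n => c n * T.tl (e n)) (k + 1), ← ih, ← a1]
      exact hI.add T _ _ _ (Finset.sum_range_succ _ _)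
  have a3 : Tendsto (fun k => mkC _ (hP k) (hP0 k)) atTop (𝓝 (mkC _ hG hG0)) := by
    rw [nhds_induced, tendsto_comap_iff, tendsto_pi_nhds]
    intro f
    have := hG.radon
    have hi : Integrable f (Measure.sum ν) :=
      f.continuous.integrable_of_hasCompactSupport f.hasCompactSupport
    have h2 := (hasSum_integral_measure hi).tendsto_sum_nat.comp (tendsto_add_atTop_nat 1)
    refine h2.congr (fun k => ?_)
    exact (integral_finsetSum_measure (fun i _ => hi.mono_measure (Measure.le_sum _ _))).symm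
  have a4 := ((hI.cont T).tendsto _).comp a3
  have a5 := hT.hasSum.tendsto_sum_nat.comp (tendsto_add_atTop_nat 1)
  exact tendsto_nhds_unique a4 (a5.congr (fun k => (a2 k).symm))

open Pool.Agent.H.MP_f2f7de_al in
theorem tl_eq (T : CV N) : T.tl = (letI := T.act
    fun g => ⨅ y : T.V, dl T.tree T.len y (g • y)) := by
  funext g
  simp only [CV.tl, CV.d, dl_path T.tree]

open Pool.Agent.H.MP_f2f7de_al in
theorem tl_one (T : CV N) : T.tl 1 = 0 := by
  rw [tl_eq]
  letI := T.act
  have := T.tree.connected.nonempty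
  have h : ∀ y : T.V, dl T.tree T.len y ((1 : FreeGroup (Fin N)) • y) = 0 := fun y => by
    rw [one_smul]
    exact Finset.sum_eq_zero (fun e he => absurd he (E_self T.tree y e))
  simp only [h, ciInf_const]

open Pool.Agent.H.MP_f2f7de_al in
theorem result (N : ℕ) (hN : 2 ≤ N) :
    ∃ S : Fin (6 * N) → Curr N, ∀ I : CV N → Curr N → ℝ, IsInter I →
      ∀ T T' : CV N, (∀ j, I T (S j) = I T' (S j)) → ∀ g, T.tl g = T'.tl g := by
  classical
  obtain ⟨e, he⟩ := (Set.to_countable {g : FreeGroup (Fin N) | g ≠ 1}).exists_eq_range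
    ⟨of ⟨0, by omega⟩, of_ne_one _⟩
  have he1 : ∀ n, e n ≠ 1 := fun n => (he ▸ Set.mem_range_self n : e n ∈ {g | g ≠ 1})
  let L : (FreeGroup (Fin N) → ℝ) →ₗ[ℝ] (ℕ → ℝ) := LinearMap.funLeft ℝ ℝ e
  obtain ⟨C, hC1, hC2, hC3⟩ := generic (6 * N) (L '' Fam (FreeGroup (Fin N)))
    ((fam_countable N).image _) (fun n => (eta (e n) (U N)).toReal)
  choose S hS using fun j => series e he1 (C j) (hC1 j) (hC2 j)
  refine ⟨S, fun I hI T T' h g => ?_⟩
  have sp : ∀ T : CV N, ∃ s : Finset (FreeGroup (Fin N) → ℝ), 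
      (s : Set (FreeGroup (Fin N) → ℝ)) ⊆ Fam (FreeGroup (Fin N)) ∧ s.card ≤ 3 * N ∧ T.tl ∈ Submodule.span ℝ (s : Set (FreeGroup (Fin N) → ℝ)) := by
    intro T
    rw [tl_eq]
    letI := T.act
    exact tl_span T.tree T.adj T.free T.deg T.cocompact T.len T.pos T.inv
  obtain ⟨s, s1, s2, s3⟩ := sp T
  obtain ⟨t, t1, t2, t3⟩ := sp T'
  have hm : ∀ φ ∈ Submodule.span ℝ ((s ∪ t : Finset _) : Set (FreeGroup (Fin N) → ℝ)),
      L φ ∈ Submodule.span ℝ (((s ∪ t).image L : Finset _) : Set (ℕ → ℝ)) := by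
    intro φ hφ
    rw [Finset.coe_image, ← Submodule.map_span]
    exact ⟨φ, hφ, rfl⟩
  have m1 := hm _ (Submodule.span_mono (Finset.coe_subset.2 Finset.subset_union_left) s3)
  have m2 := hm _ (Submodule.span_mono (Finset.coe_subset.2 Finset.subset_union_right) t3)
  have key := hC3 ((s ∪ t).image L) (by
    rw [Finset.coe_image, Finset.coe_union]
    exact Set.image_mono (Set.union_subset s1 t1))
    (Finset.card_image_le.trans ((Finset.card_union_le _ _).trans (by omega)))
  have k1 := (key _ m1).1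
  have k2 := (key _ m2).1
  have k3 := (key _ (Submodule.sub_mem _ m1 m2)).2 (fun j => by
    simp only [Pi.sub_apply, mul_sub]
    rw [(k1 j).tsum_sub (k2 j), sub_eq_zero]
    exact (hS j I hI T (k1 j)).symm.trans ((h j).trans (hS j I hI T' (k2 j))))
  by_cases hg : g = 1
  · rw [hg, tl_one, tl_one]
  · obtain ⟨n, rfl⟩ : g ∈ Set.range e := he ▸ hg
    exact sub_eq_zero.1 (congrFun k3 n)

end Pool.Agent.Results.MP_f2f7de_al.Yes
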